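import Mathlib
import Pool.Agent.Lib.helper10.Rellich

open MeasureTheory Set Filter Topology Metric
open scoped ENNReal NNReal RealInnerProductSpace ContDiff Convolution

namespace Pool.Agent.H.MP_8b3296_mp

abbrev E := EuclideanSpace ℝ (Fin 3)

def WG (u : E → ℝ) (G : E → E) : Prop :=
  ∀ φ : E → ℝ, ContDiff ℝ ∞ φ → HasCompactSupport φ → ∀ z : E,
    ∫ x, u x * fderiv ℝ φ x z = -∫ x, ⟪G x, z⟫ * φ x

structure H1 (ψ : E → ℝ) (g : E → E) : Prop where
  mψ : Measurable ψ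
  mg : Measurable g
  l2 : MemLp ψ 2 volume
  g2 : MemLp g 2 volume
  wg : WG ψ g

lemma cs {f g : E → ℝ≥0∞} (hf : Measurable f) (hg : Measurable g) :
    (∫⁻ y, g y * f y) ^ 2 ≤ (∫⁻ y, g y * f y ^ 2) * ∫⁻ y, g y := by
  have h := ENNReal.lintegral_mul_norm_pow_le (μ := volume) (f := fun y => g y * f y ^ 2) (g := g)
    (by fun_prop) hg.aemeasurable (p := 1 / 2) (q := 1 / 2) (by norm_num) (by norm_num) (by norm_num)
  have h2 : ∀ y, (g y * f y ^ 2) ^ (1 / 2 : ℝ) * g y ^ (1 / 2 : ℝ) = g y * f y := by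
    intro y
    rw [← ENNReal.mul_rpow_of_nonneg _ _ (by norm_num),
      show g y * f y ^ 2 * g y = (g y * f y) ^ 2 by ring, ← ENNReal.rpow_natCast,
      ← ENNReal.rpow_mul]
    norm_num
  simp only [h2] at h
  refine (pow_le_pow_left' h 2).trans (le_of_eq ?_)
  rw [← ENNReal.mul_rpow_of_nonneg _ _ (by norm_num), ← ENNReal.rpow_natCast, ← ENNReal.rpow_mul]
  norm_num

lemma young {η : E → ℝ} (hη : Continuous η) (h1 : ∫⁻ x, ENNReal.ofReal (η x) = 1)
    {f : E → ℝ≥0∞} (hf : Measurable f) :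
    ∫⁻ x, (∫⁻ y, ENNReal.ofReal (η (x - y)) * f y) ^ 2 ≤ ∫⁻ y, f y ^ 2 := by
  have hρ : Measurable fun q : E × E => ENNReal.ofReal (η (q.1 - q.2)) :=
    (Continuous.measurable (by fun_prop)).ennreal_ofReal
  have h2 : ∀ x, (∫⁻ y, ENNReal.ofReal (η (x - y)) * f y) ^ 2 ≤
      ∫⁻ y, ENNReal.ofReal (η (x - y)) * f y ^ 2 := by
    intro x
    have := cs hf (g := fun y => ENNReal.ofReal (η (x - y)))
      (hρ.comp (measurable_const.prodMk measurable_id))
    rwa [lintegral_sub_left_eq_self (fun y => ENNReal.ofReal (η y)), h1, mul_one] at this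
  refine (lintegral_mono h2).trans (le_of_eq ?_)
  rw [lintegral_lintegral_swap (Measurable.aemeasurable (by
    exact hρ.mul ((hf.comp measurable_snd).pow_const 2)))]
  congr 1
  ext y
  rw [lintegral_mul_const _ (Continuous.measurable (by fun_prop)).ennreal_ofReal,
    lintegral_sub_right_eq_self (fun x => ENNReal.ofReal (η x)), h1, one_mul]

lemma approx {ψ : E → ℝ} {g : E → E} (H : H1 ψ g) : ∃ w : ℕ → E → ℝ,
    (∀ n, ContDiff ℝ 1 (w n)) ∧ (∀ᵐ x, Tendsto (fun n => w n x) atTop (𝓝 (ψ x))) ∧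
    (∀ n, ∫⁻ x, ‖fderiv ℝ (w n) x‖ₑ ^ 2 ≤ ∫⁻ x, ‖g x‖ₑ ^ 2) ∧
    (∀ n, ∫⁻ x, ‖w n x‖ₑ ^ 2 ≤ ∫⁻ x, ‖ψ x‖ₑ ^ 2) := by
  have hul : LocallyIntegrable ψ volume := H.l2.locallyIntegrable (by norm_num)
  have hgl : LocallyIntegrable g volume := H.g2.locallyIntegrable (by norm_num)
  let φ : ℕ → ContDiffBump (0 : E) := fun n =>
    ⟨1 / ((n : ℝ) + 1) / 2, 1 / ((n : ℝ) + 1), by positivity, by
      have : 0 < 1 / ((n : ℝ) + 1) := by positivity
      linarith⟩
  have hlim := ContDiffBump.ae_convolution_tendsto_right_of_locallyIntegrable (μ := volume)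
    (φ := φ) (l := atTop) (K := 2) tendsto_one_div_add_atTop_nhds_zero_nat
    (Eventually.of_forall fun n => le_of_eq (by simp only [φ]; ring)) hul
  have key : ∀ (η : E → ℝ), ContDiff ℝ ∞ η → HasCompactSupport η → (∀ x, 0 ≤ η x) →
      ∫ x, η x = 1 → ∀ w, w = η ⋆[ContinuousLinearMap.lsmul ℝ ℝ, volume] ψ →
      ContDiff ℝ 1 w ∧ ∫⁻ x, ‖fderiv ℝ w x‖ₑ ^ 2 ≤ ∫⁻ x, ‖g x‖ₑ ^ 2 ∧
      ∫⁻ x, ‖w x‖ₑ ^ 2 ≤ ∫⁻ x, ‖ψ x‖ₑ ^ 2 := by
    intro η hηs hηc hη0 hηi' w hw
    have hη1 : ContDiff ℝ 1 η := hηs.of_le (by exact_mod_cast le_top)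
    have hηi : ∫⁻ x, ENNReal.ofReal (η x) = 1 := by
      rw [← ofReal_integral_eq_lintegral_ofReal (hη1.continuous.integrable_of_hasCompactSupport hηc)
        (Eventually.of_forall hη0), hηi', ENNReal.ofReal_one]
    rw [← convolution_flip] at hw
    have hw1 : ContDiff ℝ 1 w := hw ▸ hηc.contDiff_convolution_right _ hul hη1
    have hd : ∀ x z, fderiv ℝ w x z = ∫ y, ⟪g y, z⟫ * η (x - y) := by
      intro x z
      rw [hw, (hηc.hasFDerivAt_convolution_right _ hul hη1 x).fderiv,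
        convolution_precompR_apply _ hul (hηc.fderiv ℝ) (hη1.continuous_fderiv (by simp)),
        convolution_def]
      have h1 := H.wg (fun y => η (x - y)) (hηs.comp (contDiff_const.sub contDiff_id))
        (hηc.comp_homeomorph (Homeomorph.subLeft x)) z
      have h2 : ∀ y, fderiv ℝ (fun y => η (x - y)) y z = -fderiv ℝ η (x - y) z := by
        intro y
        have := ((hη1.differentiable (by simp)) (x - y)).hasFDerivAt.comp y
          ((hasFDerivAt_id y).const_sub x)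
        rw [show (fun y => η (x - y)) = η ∘ HSub.hSub x from rfl, this.fderiv]
        simp
      simp only [h2, mul_neg, integral_neg, neg_inj] at h1
      rw [← h1]
      simp [mul_comm]
    refine ⟨hw1, le_trans (lintegral_mono fun x => ?_) (young hη1.continuous hηi H.mg.enorm),
      le_trans (lintegral_mono fun x => ?_) (young hη1.continuous hηi H.mψ.enorm)⟩
    · refine pow_le_pow_left' ?_ 2
      have hi : Integrable fun y => η (x - y) • g y :=
        hgl.integrable_smul_left_of_hasCompactSupport (by have := hη1.continuous; fun_prop)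
          (hηc.comp_homeomorph (Homeomorph.subLeft x))
      have h3 : ‖fderiv ℝ w x‖ ≤ ‖∫ y, η (x - y) • g y‖ := by
        refine ContinuousLinearMap.opNorm_le_bound _ (norm_nonneg _) fun z => ?_
        rw [hd]
        have : ∫ y, ⟪g y, z⟫ * η (x - y) = ⟪z, ∫ y, η (x - y) • g y⟫ := by
          rw [← integral_inner hi]
          congr 1
          ext y
          rw [inner_smul_right, real_inner_comm, mul_comm]
        rw [this, mul_comm]
        exact norm_inner_le_norm _ _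
      refine le_trans (by simpa using ENNReal.ofReal_le_ofReal h3 :
        ‖fderiv ℝ w x‖ₑ ≤ ‖∫ y, η (x - y) • g y‖ₑ) ((enorm_integral_le_lintegral_enorm _).trans
        (le_of_eq ?_))
      congr 1
      ext y
      rw [enorm_smul, Real.enorm_eq_ofReal (hη0 _)]
    · refine pow_le_pow_left' ?_ 2
      rw [hw, convolution_def]
      refine (enorm_integral_le_lintegral_enorm _).trans (le_of_eq ?_)
      congr 1
      ext y
      simp [Real.enorm_eq_ofReal (hη0 _)]
  have k := fun n => key ((φ n).normed volume) (φ n).contDiff_normed (φ n).hasCompactSupport_normed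
    (φ n).nonneg_normed (φ n).integral_normed _ rfl
  exact ⟨_, fun n => (k n).1, hlim, fun n => (k n).2.1, fun n => (k n).2.2⟩

lemma sq_enorm (a : ℝ) : ENNReal.ofReal (a ^ 2) = ‖a‖ₑ ^ 2 := by
  rw [← sq_abs, ENNReal.ofReal_pow (abs_nonneg _), ← Real.norm_eq_abs, ofReal_norm]

lemma transl {ψ : E → ℝ} {g : E → E} (H : H1 ψ g) (h : E) :
    ∫⁻ x, ENNReal.ofReal ((ψ (x + h) - ψ x) ^ 2)
      ≤ ENNReal.ofReal (‖h‖ ^ 2) * ∫⁻ x, ‖g x‖ₑ ^ 2 := by
  obtain ⟨w, h1, h2, h3, -⟩ := approx H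
  have h4 : ∀ᵐ x, Tendsto (fun n => w n (x + h)) atTop (𝓝 (ψ (x + h))) :=
    (measurePreserving_add_right volume h).quasiMeasurePreserving.ae h2
  have h5 : ∀ᵐ x, liminf (fun n => ENNReal.ofReal ((w n (x + h) - w n x) ^ 2)) atTop =
      ENNReal.ofReal ((ψ (x + h) - ψ x) ^ 2) := by
    filter_upwards [h2, h4] with x a b
    exact (ENNReal.tendsto_ofReal ((b.sub a).pow 2)).liminf_eq
  rw [← lintegral_congr_ae h5]
  refine (lintegral_liminf_le fun n => ?_).trans ?_
  · have := (h1 n).continuous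
    exact (Continuous.measurable (by fun_prop)).ennreal_ofReal
  · refine liminf_le_of_frequently_le' (Frequently.of_forall fun n => ?_)
    refine (Pool.Agent.Lib.helper10.Rellich.trans_est volume (h1 n) h).trans ?_
    refine mul_le_mul_right (le_trans (le_of_eq ?_) (h3 n)) _
    congr 1
    ext x
    rw [ENNReal.ofReal_pow (norm_nonneg _), ofReal_norm]

lemma eL2 {F : Type*} [NormedAddCommGroup F] (f : E → F) :
    eLpNorm f 2 volume = (∫⁻ x, ‖f x‖ₑ ^ 2) ^ (1 / 2 : ℝ) := by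
  rw [eLpNorm_eq_lintegral_rpow_enorm_toReal (by norm_num) (by norm_num)]
  simp

lemma sob0 : ∃ C : ℝ≥0, ∀ {ψ : E → ℝ} {g : E → E}, H1 ψ g →
    eLpNorm ψ 6 volume ≤ C * eLpNorm g 2 volume := by
  refine ⟨SNormLESNormFDerivOfEqConst ℝ (volume : Measure E) (2 : ℝ≥0), fun {ψ g} H => ?_⟩
  set C := SNormLESNormFDerivOfEqConst ℝ (volume : Measure E) (2 : ℝ≥0)
  obtain ⟨w, h1, h2, h3, h4⟩ := approx H
  let χ : ContDiffBump (0 : E) := ⟨1, 2, by norm_num, by norm_num⟩
  have hχ : ContDiff ℝ 1 χ := χ.contDiff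
  obtain ⟨K, hK⟩ := (χ.hasCompactSupport.fderiv ℝ).exists_bound_of_continuous
    (hχ.continuous_fderiv one_ne_zero)
  have hK0 : 0 ≤ K := (norm_nonneg _).trans (hK 0)
  let c : ℕ → E → ℝ := fun n x => χ ((1 / ((n : ℝ) + 1)) • x)
  have hc1 : ∀ n, ContDiff ℝ 1 (c n) := fun n => hχ.comp (contDiff_id.const_smul _)
  have hcs : ∀ n, HasCompactSupport (c n) := fun n =>
    χ.hasCompactSupport.comp_smul (c := 1 / ((n : ℝ) + 1)) (by positivity)
  have hcd : ∀ n x, ‖fderiv ℝ (c n) x‖ ≤ K * (1 / ((n : ℝ) + 1)) := by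
    intro n x
    have := ((hχ.differentiable one_ne_zero) ((1 / ((n : ℝ) + 1)) • x)).hasFDerivAt.comp x
      ((hasFDerivAt_id x).const_smul (1 / ((n : ℝ) + 1)))
    rw [show c n = χ ∘ fun x => (1 / ((n : ℝ) + 1)) • x from rfl, this.fderiv]
    refine (ContinuousLinearMap.opNorm_comp_le _ _).trans (mul_le_mul (hK _) ?_ (norm_nonneg _) hK0)
    rw [norm_smul, ContinuousLinearMap.norm_id, mul_one, Real.norm_of_nonneg (by positivity)]
  have hlim : ∀ᵐ x, Tendsto (fun n => c n x * w n x) atTop (𝓝 (ψ x)) := by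
    filter_upwards [h2] with x hx
    have : Tendsto (fun n => c n x) atTop (𝓝 1) := by
      have h5 : Tendsto (fun n : ℕ => (1 / ((n : ℝ) + 1)) • x) atTop (𝓝 0) := by
        simpa using (tendsto_one_div_add_atTop_nhds_zero_nat (𝕜 := ℝ)).smul_const x
      have h6 := (χ.continuous.tendsto 0).comp h5
      rwa [χ.one_of_mem_closedBall (mem_closedBall_self χ.rIn_pos.le)] at h6
    simpa using this.mul hx
  have hb : ∀ n, eLpNorm (fun x => c n x * w n x) 6 volume ≤
      C * (eLpNorm g 2 volume + ENNReal.ofReal (K * (1 / ((n : ℝ) + 1))) * eLpNorm ψ 2 volume) := by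
    intro n
    have h5 := eLpNorm_le_eLpNorm_fderiv_of_eq (volume : Measure E) ((hc1 n).mul (h1 n))
      (hcs n).mul_right (p := 2) (p' := 6) (by norm_num) (by simp) (by simp; norm_num)
    refine le_trans h5 (mul_le_mul_right (?_ : eLpNorm _ 2 volume ≤ _) _)
    have h6 : ∀ x, ‖fderiv ℝ (fun x => c n x * w n x) x‖ ≤
        ‖‖fderiv ℝ (w n) x‖ + K * (1 / ((n : ℝ) + 1)) * ‖w n x‖‖ := by
      intro x
      rw [fderiv_fun_mul ((hc1 n).differentiable one_ne_zero x) ((h1 n).differentiable one_ne_zero x)]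
      refine (norm_add_le _ _).trans (le_trans ?_ (le_abs_self _))
      rw [norm_smul, norm_smul, mul_comm (K * _)]
      refine add_le_add (mul_le_of_le_one_left (norm_nonneg _) ?_)
        (mul_le_mul_of_nonneg_left (hcd n x) (norm_nonneg _))
      rw [Real.norm_of_nonneg χ.nonneg]
      exact χ.le_one
    have m1 : Continuous fun x => ‖fderiv ℝ (w n) x‖ := ((h1 n).continuous_fderiv one_ne_zero).norm
    have m2 : Continuous fun x => ‖w n x‖ := (h1 n).continuous.norm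
    refine (eLpNorm_mono h6).trans ((eLpNorm_add_le m1.aestronglyMeasurable
      (m2.aestronglyMeasurable.const_smul (K * (1 / ((n : ℝ) + 1)))) (by norm_num)).trans
      (add_le_add ?_ ?_))
    · rw [eLpNorm_norm, eL2, eL2]
      exact ENNReal.rpow_le_rpow (h3 n) (by norm_num)
    · rw [eLpNorm_const_smul, eLpNorm_norm, eL2, eL2, Real.enorm_eq_ofReal (by positivity)]
      exact mul_le_mul_right (ENNReal.rpow_le_rpow (h4 n) (by norm_num)) _
  refine (Lp.eLpNorm_lim_le_liminf_eLpNorm (fun n => ((hc1 n).mul (h1 n)).continuous.aestronglyMeasurable)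
    ψ hlim).trans ?_
  have ht : Tendsto (fun n : ℕ => C * (eLpNorm g 2 volume +
      ENNReal.ofReal (K * (1 / ((n : ℝ) + 1))) * eLpNorm ψ 2 volume)) atTop
      (𝓝 (C * (eLpNorm g 2 volume + 0 * eLpNorm ψ 2 volume))) := by
    refine ENNReal.Tendsto.const_mul (Tendsto.const_add _ (ENNReal.Tendsto.mul_const ?_
      (Or.inr H.l2.2.ne))) (Or.inr ENNReal.coe_ne_top)
    simpa using ENNReal.tendsto_ofReal (tendsto_one_div_add_atTop_nhds_zero_nat.const_mul K)
  rw [zero_mul, add_zero] at ht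
  rw [← ht.liminf_eq]
  exact liminf_le_liminf (Eventually.of_forall hb)

lemma sob : ∃ S : ℝ≥0, ∀ {ψ : E → ℝ} {g : E → E}, H1 ψ g →
    (∫⁻ x, (‖ψ x‖ₑ ^ 2) ^ (3 : ℝ)) ^ (1 / 3 : ℝ) ≤ S * ∫⁻ x, ‖g x‖ₑ ^ 2 := by
  obtain ⟨C, hC⟩ := sob0
  refine ⟨C ^ 2, fun {ψ g} H => ?_⟩
  have h := pow_le_pow_left' (hC H) 2
  rw [eL2, eLpNorm_eq_lintegral_rpow_enorm_toReal (by norm_num) (by norm_num), mul_pow,
    ← ENNReal.rpow_natCast, ← ENNReal.rpow_natCast (_ ^ (1 / 2 : ℝ)), ← ENNReal.rpow_mul,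
    ← ENNReal.rpow_mul] at h
  norm_num at h
  refine le_trans (le_of_eq ?_) (by simpa using h)
  congr 1
  · congr 1
    ext x
    rw [← ENNReal.rpow_natCast, ← ENNReal.rpow_mul, ← ENNReal.rpow_natCast]
    norm_num
  · norm_num

end Pool.Agent.H.MP_8b3296_mp
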