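import Pool.Agent.H.MP_8b3296_mp.A

open MeasureTheory Set Filter Topology Metric
open scoped ENNReal NNReal RealInnerProductSpace

namespace Pool.Agent.H.MP_8b3296_mp

noncomputable def kk (x : E) : ℝ≥0∞ := ENNReal.ofReal ‖x‖⁻¹

lemma mkk : Measurable kk := (measurable_norm.inv).ennreal_ofReal

variable {ψ : E → ℝ} {g : E → E}

lemma near {R : ℝ} : ∃ c : ℝ≥0, ∀ s : ℝ, 0 < s → s ^ 3 ≤ R → ∀ {ψ : E → ℝ} {g : E → E},
    H1 ψ g → ∀ a : E, ∫⁻ x, (ball a (s ^ 3)).indicator (fun x => ‖ψ x‖ₑ ^ 2 * kk (x - a)) x ≤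
      ENNReal.ofReal s * c * ∫⁻ x, ‖g x‖ₑ ^ 2 := by
  obtain ⟨S, hS⟩ := sob
  let U : E → ℝ≥0∞ := (ball 0 R).indicator fun x => ENNReal.ofReal (‖x‖ ^ (-4 / 3 : ℝ))
  have hU : Measurable U :=
    ((measurable_norm.pow_const _).ennreal_ofReal).indicator measurableSet_ball
  have hK : ∫⁻ x, U x ^ (3 / 2 : ℝ) ≠ ∞ := by
    have h := integrableOn_ball_of_norm_le_rpow (μ := (volume : Measure E))
      (f := fun x : E => ‖x‖ ^ (-2 : ℝ)) (C := 1) (α := 2) (r := R) (by simp) (by simp; norm_num)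
      (Eventually.of_forall fun x => by
        rw [one_mul, Real.norm_of_nonneg (by positivity)])
      (measurable_norm.pow_const _).aestronglyMeasurable
    refine ne_of_lt (lt_of_le_of_lt (le_of_eq ?_) h.2)
    rw [← lintegral_indicator measurableSet_ball]
    congr 1
    ext x
    by_cases hx : x ∈ ball (0 : E) R
    · simp only [U, indicator_of_mem hx]
      rw [ENNReal.ofReal_rpow_of_nonneg (by positivity) (by norm_num),
        ← Real.rpow_mul (norm_nonneg _), Real.enorm_eq_ofReal (by positivity)]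
      norm_num
    · simp [U, indicator_of_notMem hx]
  have hK' : (∫⁻ x, U x ^ (3 / 2 : ℝ)) ^ (2 / 3 : ℝ) ≠ ∞ :=
    ENNReal.rpow_ne_top_of_nonneg (by norm_num) hK
  refine ⟨S * ((∫⁻ x, U x ^ (3 / 2 : ℝ)) ^ (2 / 3 : ℝ)).toNNReal, fun s hs hR ψ g H a => ?_⟩
  have hm := H.mψ
  have h1 : ∀ x, (ball a (s ^ 3)).indicator (fun x => ‖ψ x‖ₑ ^ 2 * kk (x - a)) x ≤
      ENNReal.ofReal s * (((‖ψ x‖ₑ ^ 2) ^ (3 : ℝ)) ^ (1 / 3 : ℝ) *
        (U (x - a) ^ (3 / 2 : ℝ)) ^ (2 / 3 : ℝ)) := by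
    intro x
    rw [← ENNReal.rpow_mul, ← ENNReal.rpow_mul]
    norm_num
    by_cases hx : x ∈ ball a (s ^ 3)
    · have hx1 : ‖x - a‖ < s ^ 3 := by rwa [mem_ball, dist_eq_norm] at hx
      have hx2 : x - a ∈ ball (0 : E) R := mem_ball_zero_iff.2 (hx1.trans_le hR)
      simp only [U, indicator_of_mem hx, indicator_of_mem hx2, kk]
      rw [mul_left_comm, ← ENNReal.ofReal_mul hs.le]
      refine mul_le_mul_right (ENNReal.ofReal_le_ofReal ?_) _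
      rcases (norm_nonneg (x - a)).eq_or_lt with h0 | h0
      · rw [← h0, inv_zero]; positivity
      · have h3 : ‖x - a‖ ^ (1 / 3 : ℝ) ≤ s := by
          have := Real.rpow_le_rpow h0.le hx1.le (z := 1 / 3) (by norm_num)
          rwa [← Real.rpow_natCast, ← Real.rpow_mul hs.le, show ((3 : ℕ) : ℝ) * (1 / 3) = 1 by norm_num,
            Real.rpow_one] at this
        have h4 : ‖x - a‖⁻¹ = ‖x - a‖ ^ (1 / 3 : ℝ) * ‖x - a‖ ^ (-4 / 3 : ℝ) := by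
          rw [← Real.rpow_add h0, ← Real.rpow_neg_one]; norm_num
        rw [h4]
        exact mul_le_mul_of_nonneg_right h3 (by positivity)
    · simp [indicator_of_notMem hx]
  refine (lintegral_mono h1).trans ?_
  rw [lintegral_const_mul' _ _ ENNReal.ofReal_ne_top, mul_assoc]
  refine mul_le_mul_right ((ENNReal.lintegral_mul_norm_pow_le (by fun_prop) (by fun_prop)
    (by norm_num) (by norm_num) (by norm_num)).trans ?_) _
  rw [lintegral_sub_right_eq_self (fun x => U x ^ (3 / 2 : ℝ)), ENNReal.coe_mul,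
    ENNReal.coe_toNNReal hK', mul_right_comm]
  exact mul_le_mul_left (hS H) _

lemma pot1 {R : ℝ} : ∃ c : ℝ≥0, ∀ s : ℝ, 0 < s → s ^ 3 ≤ R → ∀ {ψ : E → ℝ} {g : E → E},
    H1 ψ g → ∀ a : E, ∫⁻ x, ‖ψ x‖ₑ ^ 2 * kk (x - a) ≤
      ENNReal.ofReal s * c * (∫⁻ x, ‖g x‖ₑ ^ 2) + ENNReal.ofReal (s ^ 3)⁻¹ * ∫⁻ x, ‖ψ x‖ₑ ^ 2 := by
  obtain ⟨c, hc⟩ := near (R := R)
  refine ⟨c, fun s hs hR ψ g H a => le_trans ?_ (add_le_add_left (hc s hs hR H a) _)⟩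
  have hm := H.mψ
  rw [← lintegral_const_mul' _ _ ENNReal.ofReal_ne_top, ← lintegral_add_right _ (by fun_prop)]
  refine lintegral_mono fun x => ?_
  by_cases hx : x ∈ ball a (s ^ 3)
  · simp [indicator_of_mem hx]
  · simp only [indicator_of_notMem hx, zero_add, kk]
    rw [mul_comm]
    rw [mem_ball, dist_eq_norm, not_lt] at hx
    exact mul_le_mul_left (ENNReal.ofReal_le_ofReal (inv_anti₀ (by positivity) hx)) _

noncomputable def DD (ψ : E → ℝ) : ℝ≥0∞ := ∫⁻ x, ∫⁻ y, ‖ψ x‖ₑ ^ 2 * ‖ψ y‖ₑ ^ 2 * kk (x - y)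

lemma DD_lt (H : H1 ψ g) : DD ψ < ∞ := by
  obtain ⟨c, hc⟩ := pot1 (R := 1)
  have hm := H.mψ
  have hT : ∫⁻ x, ‖g x‖ₑ ^ 2 ≠ ∞ := by
    have := H.g2.2
    rw [eL2] at this
    exact ((ENNReal.rpow_lt_top_iff_of_pos (by norm_num)).1 this).ne
  have hL : ∫⁻ x, ‖ψ x‖ₑ ^ 2 ≠ ∞ := by
    have := H.l2.2
    rw [eL2] at this
    exact ((ENNReal.rpow_lt_top_iff_of_pos (by norm_num)).1 this).ne
  have h1 : ∀ x, ∫⁻ y, ‖ψ x‖ₑ ^ 2 * ‖ψ y‖ₑ ^ 2 * kk (x - y) ≤ ‖ψ x‖ₑ ^ 2 *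
      (ENNReal.ofReal 1 * c * (∫⁻ x, ‖g x‖ₑ ^ 2) + ENNReal.ofReal (1 ^ 3)⁻¹ * ∫⁻ x, ‖ψ x‖ₑ ^ 2) := by
    intro x
    simp only [mul_assoc (‖ψ x‖ₑ ^ 2)]
    rw [lintegral_const_mul' _ _ (by simp)]
    refine mul_le_mul_right (le_trans (le_of_eq ?_) (hc 1 one_pos (by norm_num) H x)) _
    simp only [kk, norm_sub_rev x]
  refine (lintegral_mono h1).trans_lt ?_
  rw [lintegral_mul_const _ (by fun_prop)]
  refine ENNReal.mul_lt_top hL.lt_top ?_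
  finiteness

lemma far (hm : Measurable ψ) (a : E) :
    (∫⁻ x, ‖ψ x‖ₑ ^ 2 * ENNReal.ofReal (max ‖x - a‖ 1)⁻¹) ^ 2 ≤ 2 * DD ψ := by
  have h0 : Measurable fun x => ‖ψ x‖ₑ ^ 2 * ENNReal.ofReal (max ‖x - a‖ 1)⁻¹ := by fun_prop
  have := mkk
  rw [sq, ← lintegral_mul_const _ h0, DD, ← lintegral_const_mul' _ _ (by simp)]
  refine lintegral_mono fun x => ?_
  rw [← lintegral_const_mul _ h0, ← lintegral_const_mul' _ _ (by simp)]
  refine lintegral_mono_ae ?_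
  filter_upwards [Measure.ae_ne volume x] with y hy
  have h1 : ENNReal.ofReal (max ‖x - a‖ 1)⁻¹ * ENNReal.ofReal (max ‖y - a‖ 1)⁻¹ ≤ 2 * kk (x - y) := by
    rw [← ENNReal.ofReal_mul (by positivity), kk]
    refine le_trans (ENNReal.ofReal_le_ofReal (?_ : _ ≤ 2 * ‖x - y‖⁻¹))
      (by rw [ENNReal.ofReal_mul (by norm_num), ENNReal.ofReal_ofNat])
    have h2 : 0 < ‖x - y‖ := norm_pos_iff.2 (sub_ne_zero.2 hy.symm)
    have h3 : ‖x - y‖ ≤ ‖x - a‖ + ‖y - a‖ := by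
      simpa using norm_sub_le (x - a) (y - a)
    have h4 := le_max_left ‖x - a‖ 1
    have h5 := le_max_right ‖x - a‖ 1
    have h6 := le_max_left ‖y - a‖ 1
    have h7 := le_max_right ‖y - a‖ 1
    rw [← mul_inv, ← div_eq_mul_inv, inv_eq_one_div, div_le_div_iff₀ (by positivity) h2]
    nlinarith [mul_nonneg (sub_nonneg.2 h5) (sub_nonneg.2 h7)]
  calc _ = ‖ψ x‖ₑ ^ 2 * ‖ψ y‖ₑ ^ 2 *
        (ENNReal.ofReal (max ‖x - a‖ 1)⁻¹ * ENNReal.ofReal (max ‖y - a‖ 1)⁻¹) := by ring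
    _ ≤ ‖ψ x‖ₑ ^ 2 * ‖ψ y‖ₑ ^ 2 * (2 * kk (x - y)) := mul_le_mul_right h1 _
    _ = _ := by ring

lemma pot2 : ∃ c : ℝ≥0, ∀ s : ℝ, 0 < s → s ^ 3 ≤ 1 → ∀ {ψ : E → ℝ} {g : E → E},
    H1 ψ g → ∀ a : E, ∃ W : ℝ≥0∞, W ^ 2 ≤ 2 * DD ψ ∧ ∫⁻ x, ‖ψ x‖ₑ ^ 2 * kk (x - a) ≤
      ENNReal.ofReal s * c * (∫⁻ x, ‖g x‖ₑ ^ 2) + ENNReal.ofReal (s ^ 3)⁻¹ * W := by
  obtain ⟨c, hc⟩ := near (R := 1)
  refine ⟨c, fun s hs hR ψ g H a => ⟨_, far H.mψ a, le_trans ?_ (add_le_add_left (hc s hs hR H a) _)⟩⟩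
  have hm := H.mψ
  rw [← lintegral_const_mul' _ _ ENNReal.ofReal_ne_top, ← lintegral_add_right _ (by fun_prop)]
  refine lintegral_mono fun x => ?_
  by_cases hx : x ∈ ball a (s ^ 3)
  · simp [indicator_of_mem hx]
  · simp only [indicator_of_notMem hx, zero_add, kk]
    rw [mul_left_comm, ← ENNReal.ofReal_mul (by positivity)]
    rw [mem_ball, dist_eq_norm, not_lt] at hx
    refine mul_le_mul_right (ENNReal.ofReal_le_ofReal ?_) _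
    have h3 : 0 < s ^ 3 := by positivity
    rw [← mul_inv]
    refine inv_anti₀ (by positivity) ?_
    rcases le_total ‖x - a‖ 1 with h | h
    · rwa [max_eq_right h, mul_one]
    · rw [max_eq_left h]
      exact mul_le_of_le_one_left (norm_nonneg _) hR

lemma ptw {J : ℝ → ℝ} {c r : ℝ} (hc : 0 < c) (hr : 0 < r) (h0 : ∀ t, 0 ≤ t → 0 ≤ J t)
    (h1 : ∀ t, 0 ≤ t → t ≤ r → c * t ≤ J t) (a b : ℝ) :
    a ^ 2 ≤ (c⁻¹ + 4 + 4 / r) * (J (a ^ 2) + (b - a) ^ 2 + a ^ 2 * b ^ 2) := by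
  have hJ := h0 _ (sq_nonneg a)
  have h2 : 0 < c⁻¹ := by positivity
  have h3 : 0 < 4 / r := by positivity
  have h4 := sq_nonneg (b - a)
  have h5 : 0 ≤ a ^ 2 * b ^ 2 := by positivity
  rcases le_total (a ^ 2) r with h | h
  · have h6 : a ^ 2 ≤ c⁻¹ * J (a ^ 2) := by
      rw [inv_mul_eq_div, le_div_iff₀ hc, mul_comm]
      exact h1 _ (sq_nonneg a) h
    refine h6.trans (mul_le_mul (by linarith) (by linarith) hJ (by positivity))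
  · rcases le_total (r / 4) (b ^ 2) with h' | h'
    · have h6 : a ^ 2 ≤ 4 / r * (a ^ 2 * b ^ 2) := by
        rw [div_mul_eq_mul_div, le_div_iff₀ hr]
        nlinarith [sq_nonneg a]
      refine h6.trans (mul_le_mul (by linarith) (by linarith) h5 (by positivity))
    · have h6 : a ^ 2 ≤ 4 * (b - a) ^ 2 := by
        have : (2 * b) ^ 2 ≤ a ^ 2 := by nlinarith
        have h7 := abs_le.1 (sq_le_sq.1 this)
        rcases le_total 0 a with ha | ha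
        · rw [abs_of_nonneg ha] at h7; nlinarith
        · rw [abs_of_nonpos ha] at h7; nlinarith
      refine h6.trans (mul_le_mul (by linarith) (by linarith) h4 (by positivity))

lemma mass {J : ℝ → ℝ} (hJ : Measurable J) {C : ℝ} (hC : 0 ≤ C) (h0 : ∀ t, 0 ≤ t → 0 ≤ J t)
    (h1 : ∀ a b : ℝ, a ^ 2 ≤ C * (J (a ^ 2) + (b - a) ^ 2 + a ^ 2 * b ^ 2)) (H : H1 ψ g) :
    volume (ball (0 : E) 1) * ∫⁻ x, ‖ψ x‖ₑ ^ 2 ≤ ENNReal.ofReal C *
      (volume (ball (0 : E) 1) * ((∫⁻ x, ENNReal.ofReal (J (ψ x ^ 2))) + ∫⁻ x, ‖g x‖ₑ ^ 2) + DD ψ) := by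
  have hm := H.mψ
  have hk := mkk
  have h2 : ∀ h : E, ‖h‖ ≤ 1 → ∫⁻ x, ‖ψ x‖ₑ ^ 2 ≤ ENNReal.ofReal C *
      ((∫⁻ x, ENNReal.ofReal (J (ψ x ^ 2))) + (∫⁻ x, ‖g x‖ₑ ^ 2) +
        ∫⁻ x, ‖ψ x‖ₑ ^ 2 * ‖ψ (x + h)‖ₑ ^ 2) := by
    intro h hh
    have h3 : ∫⁻ x, ENNReal.ofReal ((ψ (x + h) - ψ x) ^ 2) ≤ ∫⁻ x, ‖g x‖ₑ ^ 2 := by
      refine (transl H h).trans (mul_le_of_le_one_left' ?_)
      rw [← ENNReal.ofReal_one]
      exact ENNReal.ofReal_le_ofReal (pow_le_one₀ (norm_nonneg _) hh)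
    refine le_trans ?_ (mul_le_mul_right (add_le_add_left (add_le_add_right h3 _) _) _)
    rw [← lintegral_add_left (by fun_prop), ← lintegral_add_left (by fun_prop),
      ← lintegral_const_mul' _ _ ENNReal.ofReal_ne_top]
    refine lintegral_mono fun x => ?_
    have := h0 _ (sq_nonneg (ψ x))
    rw [← sq_enorm, ← sq_enorm, ← ENNReal.ofReal_mul (sq_nonneg _),
      ← ENNReal.ofReal_add this (sq_nonneg _), ← ENNReal.ofReal_add (by positivity) (by positivity),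
      ← ENNReal.ofReal_mul hC]
    exact ENNReal.ofReal_le_ofReal (h1 _ _)
  have h3 : ∫⁻ h in ball (0 : E) 1, ∫⁻ x, ‖ψ x‖ₑ ^ 2 * ‖ψ (x + h)‖ₑ ^ 2 ≤ DD ψ := by
    have h4 : ∫⁻ h in ball (0 : E) 1, ∫⁻ x, ‖ψ x‖ₑ ^ 2 * ‖ψ (x + h)‖ₑ ^ 2 ≤
        ∫⁻ h in ball (0 : E) 1, ∫⁻ x, ‖ψ x‖ₑ ^ 2 * ‖ψ (x + h)‖ₑ ^ 2 * kk h := by
      refine lintegral_mono_ae ?_
      filter_upwards [ae_restrict_mem measurableSet_ball, ae_restrict_of_ae (Measure.ae_ne volume 0)]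
        with h ha hb
      refine lintegral_mono fun x => le_mul_of_one_le_right' ?_
      rw [kk, ← ENNReal.ofReal_one]
      exact ENNReal.ofReal_le_ofReal ((one_le_inv₀ (norm_pos_iff.2 hb)).2 (mem_ball_zero_iff.1 ha).le)
    refine h4.trans ((setLIntegral_le_lintegral _ _).trans (le_of_eq ?_))
    rw [lintegral_lintegral_swap (by fun_prop), DD]
    congr 1
    ext x
    rw [← lintegral_add_left_eq_self (fun y => ‖ψ x‖ₑ ^ 2 * ‖ψ y‖ₑ ^ 2 * kk (x - y)) x]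
    simp [kk]
  rw [mul_comm, ← setLIntegral_const]
  refine (setLIntegral_mono' measurableSet_ball fun h hh => h2 h (mem_ball_zero_iff.1 hh).le).trans ?_
  rw [lintegral_const_mul' _ _ ENNReal.ofReal_ne_top, lintegral_add_left measurable_const,
    setLIntegral_const, mul_comm _ (volume _)]
  exact mul_le_mul_right (add_le_add_right h3 _) _

lemma hold : ∃ S : ℝ≥0, ∀ {ψ : E → ℝ} {g : E → E}, H1 ψ g →
    ∫⁻ x, (‖ψ x‖ₑ ^ 2) ^ (4 / 3 : ℝ) ≤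
      (∫⁻ x, ‖ψ x‖ₑ ^ 2) ^ (5 / 6 : ℝ) * (S * ∫⁻ x, ‖g x‖ₑ ^ 2) ^ (1 / 2 : ℝ) := by
  obtain ⟨S, hS⟩ := sob
  refine ⟨S, fun {ψ g} H => ?_⟩
  have hm := H.mψ
  have h := ENNReal.lintegral_mul_norm_pow_le (μ := volume) (f := fun x => ‖ψ x‖ₑ ^ 2)
    (g := fun x => (‖ψ x‖ₑ ^ 2) ^ (3 : ℝ)) (by fun_prop) (by fun_prop) (p := 5 / 6) (q := 1 / 6)
    (by norm_num) (by norm_num) (by norm_num)
  refine le_trans (le_of_eq ?_) (h.trans (mul_le_mul_right (le_trans (le_of_eq ?_)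
    (ENNReal.rpow_le_rpow (hS H) (by norm_num))) _))
  · congr 1
    ext x
    rw [← ENNReal.rpow_mul, ← ENNReal.rpow_add_of_nonneg _ _ (by norm_num) (by norm_num)]
    norm_num
  · rw [← ENNReal.rpow_mul]
    norm_num

end Pool.Agent.H.MP_8b3296_mp
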