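import Pool.Agent.H.MP_8b3296_mp.B

open MeasureTheory Set Filter Topology Metric
open scoped ENNReal NNReal RealInnerProductSpace

namespace Pool.Agent.H.MP_8b3296_mp

structure Ad (p : ℝ) (ψ : E → ℝ) (g : E → E) : Prop where
  mψ : Measurable ψ
  l2 : MemLp ψ 2 volume
  lp : Integrable fun x => (ψ x ^ 2) ^ p
  g2 : MemLp g 2 volume
  wg : WG ψ g

lemma conv {α : Type*} [MeasurableSpace α] {μ : Measure α} {f : α → ℝ} (hf : Measurable f)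
    (h0 : ∀ x, 0 ≤ f x) {F : ℝ≥0∞} (hF : ∫⁻ x, ENNReal.ofReal (f x) ∂μ = F) (hF' : F ≠ ∞) :
    Integrable f μ ∧ F = ENNReal.ofReal (∫ x, f x ∂μ) := by
  have hi : Integrable f μ := ⟨hf.aestronglyMeasurable, by
    rw [hasFiniteIntegral_iff_ofReal (Eventually.of_forall h0), hF]; exact hF'.lt_top⟩
  exact ⟨hi, by rw [ofReal_integral_eq_lintegral_ofReal hi (Eventually.of_forall h0), hF]⟩

variable {p : ℝ} {ψ : E → ℝ} {g : E → E}

lemma Ad.h1 (h : Ad p ψ g) : ∃ g', H1 ψ g' ∧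
    ∫⁻ x, ‖g' x‖ₑ ^ 2 = ENNReal.ofReal (∫ x, ‖g x‖ ^ 2) := by
  obtain ⟨G, hG, hGG⟩ := h.g2.1
  refine ⟨G, ⟨h.mψ, hG.measurable, h.l2, h.g2.ae_eq hGG, fun φ h1 h2 z => (h.wg φ h1 h2 z).trans ?_⟩, ?_⟩
  · congr 1
    exact integral_congr_ae (hGG.mono fun x hx => by simp [hx])
  · rw [ofReal_integral_eq_lintegral_ofReal h.g2.norm.integrable_sq
      (Eventually.of_forall fun x => sq_nonneg _)]
    refine lintegral_congr_ae (hGG.mono fun x hx => ?_)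
    simp only [hx]
    rw [ENNReal.ofReal_pow (norm_nonneg _), ofReal_norm]

lemma Ad.eL (h : Ad p ψ g) : ∫⁻ x, ‖ψ x‖ₑ ^ 2 = ENNReal.ofReal (∫ x, ψ x ^ 2) := by
  rw [ofReal_integral_eq_lintegral_ofReal h.l2.integrable_sq
      (Eventually.of_forall fun x => sq_nonneg _)]
  simp only [sq_enorm]

lemma Ad.eW (h : Ad p ψ g) (a : E) : Integrable (fun x => ψ x ^ 2 / ‖x - a‖) ∧
    ∫⁻ x, ‖ψ x‖ₑ ^ 2 * kk (x - a) = ENNReal.ofReal (∫ x, ψ x ^ 2 / ‖x - a‖) := by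
  obtain ⟨G, H, hG⟩ := h.h1
  obtain ⟨c, hc⟩ := pot1 (R := 1)
  have hm := h.mψ
  refine conv (by fun_prop) (fun x => by positivity) ?_
    ((hc 1 one_pos (by norm_num) H a).trans_lt ?_).ne
  · congr 1
    ext x
    rw [div_eq_mul_inv, ENNReal.ofReal_mul (sq_nonneg _), sq_enorm, kk]
  · rw [hG, h.eL]
    finiteness

noncomputable def D (ρ : E → ℝ) : ℝ := 1 / 2 * ∫ q : E × E, ρ q.1 * ρ q.2 / ‖q.1 - q.2‖

lemma D_nonneg (ψ : E → ℝ) : 0 ≤ D fun x => ψ x ^ 2 :=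
  mul_nonneg (by norm_num) (integral_nonneg fun q => by positivity)

lemma Ad.eD (h : Ad p ψ g) : Integrable (fun q : E × E => ψ q.1 ^ 2 * ψ q.2 ^ 2 / ‖q.1 - q.2‖) ∧
    DD ψ = ENNReal.ofReal (2 * D fun x => ψ x ^ 2) := by
  obtain ⟨G, H, hG⟩ := h.h1
  have hm := h.mψ
  have := conv (μ := (volume : Measure (E × E)))
    (f := fun q : E × E => ψ q.1 ^ 2 * ψ q.2 ^ 2 / ‖q.1 - q.2‖) (by fun_prop)
    (fun x => by positivity) (F := DD ψ) (by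
      rw [Measure.volume_eq_prod, lintegral_prod _ (by fun_prop), DD]
      congr 1
      ext x
      congr 1
      ext y
      rw [div_eq_mul_inv, ENNReal.ofReal_mul (by positivity), ENNReal.ofReal_mul (sq_nonneg _),
        sq_enorm, sq_enorm, kk]) (DD_lt H).ne
  refine ⟨this.1, this.2.trans ?_⟩
  rw [D]
  congr 1
  ring

lemma r1 (R : ℝ) : ∃ c : ℝ, 0 ≤ c ∧ ∀ s : ℝ, 0 < s → s ^ 3 ≤ R → ∀ {p : ℝ} {ψ : E → ℝ} {g : E → E},
    Ad p ψ g → ∀ a : E, ∫ x, ψ x ^ 2 / ‖x - a‖ ≤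
      s * c * (∫ x, ‖g x‖ ^ 2) + (s ^ 3)⁻¹ * ∫ x, ψ x ^ 2 := by
  obtain ⟨c, hc⟩ := pot1 (R := R)
  refine ⟨c, c.2, fun s hs hR p ψ g h a => ?_⟩
  obtain ⟨G, H, hG⟩ := h.h1
  have h1 := hc s hs hR H a
  have hT : 0 ≤ ∫ x, ‖g x‖ ^ 2 := integral_nonneg fun x => sq_nonneg _
  have hL : 0 ≤ ∫ x, ψ x ^ 2 := integral_nonneg fun x => sq_nonneg _
  rwa [hG, h.eL, (h.eW a).2, ← ENNReal.ofReal_coe_nnreal, ← ENNReal.ofReal_mul hs.le,
    ← ENNReal.ofReal_mul (by positivity), ← ENNReal.ofReal_mul (by positivity),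
    ← ENNReal.ofReal_add (by positivity) (by positivity),
    ENNReal.ofReal_le_ofReal_iff (by positivity)] at h1

lemma r2 {ε : ℝ} (hε : 0 < ε) : ∃ K : ℝ, ∀ {p : ℝ} {ψ : E → ℝ} {g : E → E},
    Ad p ψ g → ∀ a : E, ∫ x, ψ x ^ 2 / ‖x - a‖ ≤
      ε * (∫ x, ‖g x‖ ^ 2) + ε * (D fun x => ψ x ^ 2) + K := by
  obtain ⟨c, hc⟩ := pot2
  obtain ⟨s, hs, hs1, hs2⟩ : ∃ s : ℝ, 0 < s ∧ s ≤ 1 ∧ s * c ≤ ε := by
    refine ⟨min 1 (ε / (c + 1)), by positivity, min_le_left _ _, ?_⟩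
    refine (mul_le_mul_of_nonneg_right (min_le_right _ _) c.2).trans ?_
    rw [div_mul_eq_mul_div, div_le_iff₀ (by positivity)]
    exact mul_le_mul_of_nonneg_left (le_add_of_nonneg_right zero_le_one) hε.le
  refine ⟨((s ^ 3)⁻¹) ^ 2 / ε, fun {p ψ g} h a => ?_⟩
  obtain ⟨G, H, hG⟩ := h.h1
  obtain ⟨W, h0, h1⟩ := hc s hs (pow_le_one₀ hs.le hs1) H a
  have hT : 0 ≤ ∫ x, ‖g x‖ ^ 2 := integral_nonneg fun x => sq_nonneg _
  have hD := D_nonneg ψ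
  rw [h.eD.2] at h0
  have hW : W ≠ ∞ := by
    rintro rfl
    rw [ENNReal.top_pow (by norm_num), top_le_iff] at h0
    exact ENNReal.mul_ne_top (by simp) ENNReal.ofReal_ne_top h0
  lift W to ℝ≥0 using hW
  have hW0 := W.2
  rw [← ENNReal.ofReal_coe_nnreal, ← ENNReal.ofReal_pow (by positivity),
    show (2 : ℝ≥0∞) = ENNReal.ofReal 2 by simp, ← ENNReal.ofReal_mul (by positivity),
    ENNReal.ofReal_le_ofReal_iff (by positivity)] at h0
  rw [hG, (h.eW a).2, ← ENNReal.ofReal_coe_nnreal, ← ENNReal.ofReal_coe_nnreal (p := W),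
    ← ENNReal.ofReal_mul hs.le,
    ← ENNReal.ofReal_mul (by positivity), ← ENNReal.ofReal_mul (by positivity),
    ← ENNReal.ofReal_add (by positivity) (by positivity),
    ENNReal.ofReal_le_ofReal_iff (by positivity)] at h1
  have h2 : (s ^ 3)⁻¹ * W ≤ ε * (W ^ 2 / 4) + ((s ^ 3)⁻¹) ^ 2 / ε := by
    have : ((s ^ 3)⁻¹) ^ 2 / ε = ε * ((s ^ 3)⁻¹ / ε) ^ 2 := by field_simp
    rw [this]
    have h3 : (s ^ 3)⁻¹ = ε * ((s ^ 3)⁻¹ / ε) := by field_simp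
    generalize (s ^ 3)⁻¹ / ε = t at h3
    rw [h3]
    nlinarith [mul_nonneg hε.le (sq_nonneg (W / 2 - t))]
  nlinarith [mul_le_mul_of_nonneg_right hs2 hT, mul_le_mul_of_nonneg_left h0 hε.le]

lemma r3 {J : ℝ → ℝ} (hJ : Measurable J) {c r : ℝ} (hc : 0 < c) (hr : 0 < r)
    (h0 : ∀ t, 0 ≤ t → 0 ≤ J t) (h1 : ∀ t, 0 ≤ t → t ≤ r → c * t ≤ J t) :
    ∃ κ : ℝ, 0 < κ ∧ ∀ {p : ℝ} {ψ : E → ℝ} {g : E → E}, Ad p ψ g →
      Integrable (fun x => J (ψ x ^ 2)) → κ * ∫ x, ψ x ^ 2 ≤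
        (∫ x, J (ψ x ^ 2)) + (∫ x, ‖g x‖ ^ 2) + D fun x => ψ x ^ 2 := by
  obtain ⟨B, hB⟩ : ∃ B : ℝ≥0, volume (ball (0 : E) 1) = B :=
    ⟨_, (ENNReal.coe_toNNReal measure_ball_lt_top.ne).symm⟩
  have hB0 : (0 : ℝ) < B := by
    have := measure_ball_pos volume (0 : E) one_pos
    rw [hB] at this
    exact_mod_cast this
  have hC : 0 < c⁻¹ + 4 + 4 / r := by positivity
  have hp := ptw hc hr h0 h1
  generalize c⁻¹ + 4 + 4 / r = C at hC hp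
  refine ⟨B / (C * (B + 2)), by positivity, fun {p ψ g} h hi => ?_⟩
  obtain ⟨G, H, hG⟩ := h.h1
  have h2 := mass hJ hC.le h0 hp H
  have hT : 0 ≤ ∫ x, ‖g x‖ ^ 2 := integral_nonneg fun x => sq_nonneg _
  have hL : 0 ≤ ∫ x, ψ x ^ 2 := integral_nonneg fun x => sq_nonneg _
  have hJ0 : 0 ≤ ∫ x, J (ψ x ^ 2) := integral_nonneg fun x => h0 _ (sq_nonneg _)
  have hD := D_nonneg ψ
  rw [hG, h.eL, h.eD.2, hB, ← ofReal_integral_eq_lintegral_ofReal hi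
    (Eventually.of_forall fun x => h0 _ (sq_nonneg _)), ← ENNReal.ofReal_coe_nnreal,
    ← ENNReal.ofReal_mul hB0.le, ← ENNReal.ofReal_add hJ0 hT, ← ENNReal.ofReal_mul hB0.le,
    ← ENNReal.ofReal_add (by positivity) (by positivity), ← ENNReal.ofReal_mul hC.le,
    ENNReal.ofReal_le_ofReal_iff (by positivity)] at h2
  rw [div_mul_eq_mul_div, div_le_iff₀ (by positivity)]
  refine h2.trans ?_
  rw [mul_comm _ (C * _), mul_assoc]
  refine mul_le_mul_of_nonneg_left ?_ hC.le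
  nlinarith [mul_nonneg hB0.le hD]

lemma r4 : ∃ S : ℝ, 0 ≤ S ∧ ∀ {p : ℝ} {ψ : E → ℝ} {g : E → E}, Ad p ψ g →
    Integrable (fun x => (ψ x ^ 2) ^ (4 / 3 : ℝ)) ∧ ∫ x, (ψ x ^ 2) ^ (4 / 3 : ℝ) ≤
      (∫ x, ψ x ^ 2) ^ (5 / 6 : ℝ) * √(S * ∫ x, ‖g x‖ ^ 2) := by
  obtain ⟨S, hS⟩ := hold
  refine ⟨S, S.2, fun {p ψ g} h => ?_⟩
  obtain ⟨G, H, hG⟩ := h.h1
  have h1 := hS H
  have hm := h.mψ
  have hT : 0 ≤ ∫ x, ‖g x‖ ^ 2 := integral_nonneg fun x => sq_nonneg _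
  have hL : 0 ≤ ∫ x, ψ x ^ 2 := integral_nonneg fun x => sq_nonneg _
  have hS0 := S.2
  rw [hG, h.eL, ← ENNReal.ofReal_coe_nnreal, ← ENNReal.ofReal_mul (by positivity),
    ENNReal.ofReal_rpow_of_nonneg hL (by norm_num),
    ENNReal.ofReal_rpow_of_nonneg (by positivity) (by norm_num),
    ← ENNReal.ofReal_mul (by positivity), ← Real.sqrt_eq_rpow] at h1
  have := conv (μ := volume) (f := fun x => (ψ x ^ 2) ^ (4 / 3 : ℝ)) (by fun_prop)
    (fun x => by positivity) (F := ∫⁻ x, (‖ψ x‖ₑ ^ 2) ^ (4 / 3 : ℝ)) (by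
      congr 1
      ext x
      rw [← sq_enorm, ENNReal.ofReal_rpow_of_nonneg (sq_nonneg _) (by norm_num)])
    (h1.trans_lt ENNReal.ofReal_lt_top).ne
  refine ⟨this.1, ?_⟩
  rwa [this.2, ENNReal.ofReal_le_ofReal_iff (by positivity)] at h1

lemma bump {u : E → ℝ} (hu : ContDiff ℝ 1 u) (hs : HasCompactSupport u) (hp : 0 < p) :
    Ad p u (gradient u) := by
  have hc := hu.continuous
  have hd := hu.continuous_fderiv one_ne_zero
  have hg : Continuous (gradient u) :=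
    (InnerProductSpace.toDual ℝ E).symm.continuous.comp hd
  have hgs : HasCompactSupport (gradient u) :=
    (hs.fderiv ℝ).comp_left (g := (InnerProductSpace.toDual ℝ E).symm) (map_zero _)
  refine ⟨hc.measurable, hc.memLp_of_hasCompactSupport hs, ?_, hg.memLp_of_hasCompactSupport hgs, ?_⟩
  · refine Continuous.integrable_of_hasCompactSupport
      ((hc.pow 2).rpow_const fun x => Or.inr hp.le) ?_
    exact hs.comp_left (g := fun t : ℝ => (t ^ 2) ^ p) (by simp [hp.ne'])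
  · intro φ h1 h2 z
    have h3 : ContDiff ℝ 1 φ := h1.of_le (by exact_mod_cast le_top)
    have h4 := h3.continuous
    have h5 := h3.continuous_fderiv one_ne_zero
    rw [integral_mul_fderiv_eq_neg_fderiv_mul_of_integrable
      (Continuous.integrable_of_hasCompactSupport (by fun_prop) h2.mul_left)
      (Continuous.integrable_of_hasCompactSupport (by fun_prop) hs.mul_right)
      (Continuous.integrable_of_hasCompactSupport (by fun_prop) hs.mul_right)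
      (fun x _ => hu.differentiable one_ne_zero x) (fun x _ => h3.differentiable one_ne_zero x)]
    simp [gradient]

lemma ex_bump (l : ℝ) (hl : 0 ≤ l) : ∃ u : E → ℝ, ContDiff ℝ 1 u ∧ HasCompactSupport u ∧
    (∀ x, 0 ≤ u x) ∧ ∫ x, u x ^ 2 = l := by
  let χ : ContDiffBump (0 : E) := ⟨1, 2, by norm_num, by norm_num⟩
  have hχ : ContDiff ℝ 1 χ := χ.contDiff
  have hN : 0 < ∫ x, χ x ^ 2 := by
    refine Continuous.integral_pos_of_hasCompactSupport_nonneg_nonzero (hχ.continuous.pow 2)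
      (χ.hasCompactSupport.comp_left (g := fun t : ℝ => t ^ 2) (by simp)) (fun x => sq_nonneg _)
      (x := 0) ?_
    simp [χ.one_of_mem_closedBall (mem_closedBall_self χ.rIn_pos.le)]
  refine ⟨fun x => √(l / ∫ x, χ x ^ 2) * χ x, contDiff_const.mul hχ, χ.hasCompactSupport.mul_left,
    fun x => mul_nonneg (Real.sqrt_nonneg _) χ.nonneg, ?_⟩
  simp only [mul_pow]
  rw [integral_const_mul, Real.sq_sqrt (by positivity), div_mul_cancel₀ _ hN.ne']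

end Pool.Agent.H.MP_8b3296_mp
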