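import Pool.Agent.H.MP_8b3296_mp.C

open MeasureTheory Set Filter Topology Metric
open scoped ENNReal NNReal RealInnerProductSpace

namespace Pool.Agent.H.MP_8b3296_mp

variable {k : ℕ}

noncomputable def V (z : Fin k → ℝ) (R : Fin k → E) (x : E) : ℝ := ∑ j, z j / ‖x - R j‖

noncomputable def U (z : Fin k → ℝ) (R : Fin k → E) : ℝ :=
  ∑ i, ∑ j, if i < j then z i * z j / ‖R i - R j‖ else 0

noncomputable def J (γ C p t : ℝ) : ℝ := γ / p * t ^ p - 3 * C / 4 * t ^ (4 / 3 : ℝ)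

noncomputable def al (γ C p : ℝ) : ℝ :=
  (3 * p - 4) / (4 * (p - 1)) * ((C * p / (4 * γ * (p - 1))) ^ (1 / (p - 4 / 3))) ^ (1 / 3 : ℝ) * C

noncomputable def En (A : ℝ) (F : ℝ → ℝ) (z : Fin k → ℝ) (R : Fin k → E) (ρ : E → ℝ) (g : E → E) : ℝ :=
  A * (∫ x, ‖g x‖ ^ 2) + (∫ x, F (ρ x)) - (∫ x, V z R x * ρ x) + D ρ + U z R

variable {γ C p A : ℝ} {ψ : E → ℝ} {g : E → E} {z : Fin k → ℝ} {R : Fin k → E}

lemma al_pos (hγ : 0 < γ) (hC : 0 < C) (hp : 4 / 3 < p) : 0 < al γ C p := by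
  have : 0 < p - 1 := by linarith
  have : 0 < 3 * p - 4 := by linarith
  have : 0 < p := by linarith
  unfold al
  positivity

lemma Ja_nonneg (hγ : 0 < γ) (hC : 0 < C) (hp : 4 / 3 < p) (t : ℝ) (ht : 0 ≤ t) :
    0 ≤ J γ C p t + al γ C p * t := by
  have h1 : 0 < p - 1 := by linarith
  have h2 : 0 < p - 4 / 3 := by linarith
  have h3 : 0 < p := by linarith
  obtain ⟨s0, hs0⟩ : ∃ s0, s0 = ((C * p / (4 * γ * (p - 1))) ^ (1 / (p - 4 / 3))) ^ (1 / 3 : ℝ) :=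
    ⟨_, rfl⟩
  have h4 : 0 < s0 := by rw [hs0]; positivity
  have h5 : s0 ^ (3 * p - 4) = C * p / (4 * γ * (p - 1)) := by
    rw [hs0, ← Real.rpow_mul (by positivity), ← Real.rpow_mul (by positivity),
      show 1 / (p - 4 / 3) * (1 / 3 * (3 * p - 4)) = 1 by
        rw [show 1 / 3 * (3 * p - 4) = p - 4 / 3 by ring, one_div_mul_cancel h2.ne'], Real.rpow_one]
  obtain ⟨s, hs⟩ : ∃ s, s = t ^ (1 / 3 : ℝ) := ⟨_, rfl⟩
  have h6 : 0 ≤ s := by rw [hs]; positivity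
  have h7 : t ^ (4 / 3 : ℝ) = t * s := by
    rw [hs, show (4 / 3 : ℝ) = 1 + 1 / 3 by norm_num, Real.rpow_add' ht (by norm_num), Real.rpow_one]
  have h8 : t ^ p = t * s ^ (3 * p - 3) := by
    rw [hs, ← Real.rpow_mul ht, show 1 / 3 * (3 * p - 3) = p - 1 by ring]
    nth_rw 1 [show p = 1 + (p - 1) by ring]
    rw [Real.rpow_add' ht (by linarith), Real.rpow_one]
  have h9 := one_add_mul_self_le_rpow_one_add (s := s / s0 - 1) (p := 3 * p - 3)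
    (by have : 0 ≤ s / s0 := by positivity
        linarith) (by linarith)
  rw [add_sub_cancel, Real.div_rpow h6 h4.le, le_div_iff₀ (by positivity),
    show 3 * p - 3 = (3 * p - 4) + 1 by ring, Real.rpow_add h4, h5, Real.rpow_one,
    show 3 * p - 4 + 1 = 3 * p - 3 by ring] at h9
  unfold J al
  rw [← hs0, h7, h8]
  have h10 := mul_le_mul_of_nonneg_left h9 (show 0 ≤ γ / p by positivity)
  have h11 : γ / p * ((1 + (3 * p - 3) * (s / s0 - 1)) * (C * p / (4 * γ * (p - 1)) * s0)) =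
      3 * C / 4 * s - (3 * p - 4) / (4 * (p - 1)) * s0 * C := by
    field_simp
    ring
  rw [h11] at h10
  nlinarith [mul_le_mul_of_nonneg_left h10 ht]

lemma Ja_small (hγ : 0 < γ) (hC : 0 < C) (hp : 4 / 3 < p) (t : ℝ) (ht : 0 ≤ t)
    (h : t ≤ (2 * al γ C p / (3 * C)) ^ 3) : al γ C p / 2 * t ≤ J γ C p t + al γ C p * t := by
  have ha := al_pos hγ hC hp
  have h3 : 0 < p := by linarith
  have h7 : t ^ (4 / 3 : ℝ) = t * t ^ (1 / 3 : ℝ) := by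
    rw [show (4 / 3 : ℝ) = 1 + 1 / 3 by norm_num, Real.rpow_add' ht (by norm_num), Real.rpow_one]
  have h8 := Real.rpow_le_rpow ht h (z := 1 / 3) (by norm_num)
  rw [← Real.rpow_natCast, ← Real.rpow_mul (by positivity),
    show ((3 : ℕ) : ℝ) * (1 / 3) = 1 by norm_num, Real.rpow_one, le_div_iff₀ (by positivity)] at h8
  unfold J
  rw [h7]
  have : 0 ≤ γ / p * t ^ p := by positivity
  nlinarith [mul_le_mul_of_nonneg_left h8 ht]

lemma mJ : Measurable fun t => J γ C p t + al γ C p * t := by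
  unfold J
  fun_prop

lemma Ad.iJ (h : Ad p ψ g) : Integrable fun x => J γ C p (ψ x ^ 2) := by
  obtain ⟨S, -, hS⟩ := r4
  exact (h.lp.const_mul _).sub ((hS h).1.const_mul _)

lemma Ad.iJa (h : Ad p ψ g) : Integrable fun x => J γ C p (ψ x ^ 2) + al γ C p * ψ x ^ 2 :=
  h.iJ.add (h.l2.integrable_sq.const_mul _)

lemma V_eq (x : E) : V z R x * ψ x ^ 2 = ∑ j, z j * (ψ x ^ 2 / ‖x - R j‖) := by
  rw [V, Finset.sum_mul]
  exact Finset.sum_congr rfl fun j _ => by ring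

lemma Ad.iV (h : Ad p ψ g) : Integrable fun x => V z R x * ψ x ^ 2 := by
  simp only [V_eq]
  exact integrable_finsetSum _ fun j _ => (h.eW _).1.const_mul _

lemma Ad.bV (h : Ad p ψ g) (hz : ∀ j, 0 < z j) {X : ℝ} (hX : ∀ a, ∫ x, ψ x ^ 2 / ‖x - a‖ ≤ X) :
    ∫ x, V z R x * ψ x ^ 2 ≤ (∑ j, z j) * X := by
  simp only [V_eq]
  rw [integral_finsetSum _ fun j _ => (h.eW _).1.const_mul _, Finset.sum_mul]
  refine Finset.sum_le_sum fun j _ => ?_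
  rw [integral_const_mul]
  exact mul_le_mul_of_nonneg_left (hX _) (hz j).le

lemma r3' (hγ : 0 < γ) (hC : 0 < C) (hp : 4 / 3 < p) : ∃ κ : ℝ, 0 < κ ∧
    ∀ {ψ : E → ℝ} {g : E → E}, Ad p ψ g → κ * ∫ x, ψ x ^ 2 ≤
      (∫ x, J γ C p (ψ x ^ 2) + al γ C p * ψ x ^ 2) + (∫ x, ‖g x‖ ^ 2) + D fun x => ψ x ^ 2 := by
  have ha := al_pos hγ hC hp
  obtain ⟨κ, h1, h2⟩ := r3 mJ (c := al γ C p / 2) (r := (2 * al γ C p / (3 * C)) ^ 3)
    (by positivity) (by positivity) (Ja_nonneg hγ hC hp) (Ja_small hγ hC hp)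
  exact ⟨κ, h1, fun h => h2 h h.iJa⟩

lemma lb1 (hA : 0 < A) (hγ : 0 < γ) (hC : 0 < C) (hp : 4 / 3 < p) (hz : ∀ j, 0 < z j) :
    ∃ κ K : ℝ, 0 < κ ∧ ∀ {ψ : E → ℝ} {g : E → E}, Ad p ψ g → κ * (∫ x, ψ x ^ 2) - K ≤
      En A (fun t => J γ C p t + al γ C p * t) z R (fun x => ψ x ^ 2) g := by
  obtain ⟨κ, h1, h2⟩ := r3' hγ hC hp
  have hZ : 0 ≤ ∑ j, z j := Finset.sum_nonneg fun j _ => (hz j).le
  have hm : 0 < min A 1 / 2 := by positivity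
  obtain ⟨K, hK⟩ := r2 (ε := min A 1 / 2 / (∑ j, z j + 1)) (by positivity)
  refine ⟨min A 1 / 2 * κ, (∑ j, z j) * K - U z R, by positivity, fun {ψ g} h => ?_⟩
  have h3 := h.bV (R := R) hz (hK h)
  have h4 := mul_le_mul_of_nonneg_left (h2 h) hm.le
  have hT : 0 ≤ ∫ x, ‖g x‖ ^ 2 := integral_nonneg fun x => sq_nonneg _
  have hJ : 0 ≤ ∫ x, J γ C p (ψ x ^ 2) + al γ C p * ψ x ^ 2 :=
    integral_nonneg fun x => Ja_nonneg hγ hC hp _ (sq_nonneg _)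
  have hD := D_nonneg ψ
  have h5 : (∑ j, z j) * (min A 1 / 2 / (∑ j, z j + 1)) ≤ min A 1 / 2 := by
    rw [mul_div_assoc', div_le_iff₀ (by positivity)]
    nlinarith
  have h6 := min_le_left A 1
  have h7 := min_le_right A 1
  unfold En
  generalize min A 1 / 2 / (∑ j, z j + 1) = e at h3 h5
  nlinarith [mul_le_mul_of_nonneg_right h5 hT, mul_le_mul_of_nonneg_right h5 hD,
    mul_le_mul_of_nonneg_right h6 hT, mul_le_mul_of_nonneg_right h7 hD,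
    mul_le_mul_of_nonneg_right h7 hJ]

lemma lb2 (hγ : 0 < γ) (hC : 0 < C) (hp : 4 / 3 < p) : ∃ κ : ℝ, 0 < κ ∧ ∀ s : ℝ, 0 < s →
    ∃ c : ℝ, 0 ≤ c ∧ ∀ A : ℝ, 0 < A → ∀ (k : ℕ) (z : Fin k → ℝ) (R : Fin k → E), (∀ j, 0 < z j) →
      (∑ j, z j) * c ≤ A / 2 → (∑ j, z j) * (s ^ 3)⁻¹ ≤ min (A / 2) 1 * κ / 2 →
      ∀ {ψ : E → ℝ} {g : E → E}, Ad p ψ g → U z R + min (A / 2) 1 * κ / 2 * (∫ x, ψ x ^ 2) ≤
      En A (fun t => J γ C p t + al γ C p * t) z R (fun x => ψ x ^ 2) g := by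
  obtain ⟨κ, h1, h2⟩ := r3' hγ hC hp
  refine ⟨κ, h1, fun s hs => ?_⟩
  obtain ⟨c, hc, hK⟩ := r1 (s ^ 3)
  refine ⟨s * c, by positivity, fun A hA k z R hz h5 h8 ψ g h => ?_⟩
  have hm : 0 < min (A / 2) 1 := by positivity
  have h3 := h.bV (R := R) hz (hK s hs le_rfl h)
  have h4 := mul_le_mul_of_nonneg_left (h2 h) hm.le
  have hT : 0 ≤ ∫ x, ‖g x‖ ^ 2 := integral_nonneg fun x => sq_nonneg _
  have hL : 0 ≤ ∫ x, ψ x ^ 2 := integral_nonneg fun x => sq_nonneg _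
  have hJ : 0 ≤ ∫ x, J γ C p (ψ x ^ 2) + al γ C p * ψ x ^ 2 :=
    integral_nonneg fun x => Ja_nonneg hγ hC hp _ (sq_nonneg _)
  have hD := D_nonneg ψ
  have h6 := min_le_left (A / 2) 1
  have h7 := min_le_right (A / 2) 1
  unfold En
  nlinarith [mul_le_mul_of_nonneg_right h5 hT, mul_le_mul_of_nonneg_right h8 hL,
    mul_le_mul_of_nonneg_right h6 hT, mul_le_mul_of_nonneg_right h7 hD,
    mul_le_mul_of_nonneg_right h7 hJ]

lemma lb3 (hA : 0 < A) (hz : ∀ j, 0 < z j) : ∃ K S : ℝ, 0 ≤ S ∧ ∀ γ C p : ℝ, 0 < γ → 0 < p →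
    0 < C → ∀ {ψ : E → ℝ} {g : E → E}, Ad p ψ g →
      U z R - K * (∫ x, ψ x ^ 2) - S * C ^ 2 * (∫ x, ψ x ^ 2) ^ (5 / 3 : ℝ) ≤
        En A (J γ C p) z R (fun x => ψ x ^ 2) g := by
  obtain ⟨c, hc, hK⟩ := r1 1
  obtain ⟨S, hS0, hS⟩ := r4
  have hZ : 0 ≤ ∑ j, z j := Finset.sum_nonneg fun j _ => (hz j).le
  obtain ⟨s, hs, hs1, hs2⟩ : ∃ s : ℝ, 0 < s ∧ s ≤ 1 ∧ s * ((∑ j, z j) * c) ≤ A / 2 := by
    refine ⟨min 1 (A / 2 / ((∑ j, z j) * c + 1)), by positivity, min_le_left _ _, ?_⟩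
    refine (mul_le_mul_of_nonneg_right (min_le_right _ _) (by positivity)).trans ?_
    rw [div_mul_eq_mul_div, div_le_iff₀ (by positivity)]
    exact mul_le_mul_of_nonneg_left (by linarith) (by positivity)
  refine ⟨(∑ j, z j) * (s ^ 3)⁻¹, S / A, by positivity, fun γ C p hγ hp hC ψ g h => ?_⟩
  have h3 := h.bV (R := R) hz (hK s hs (pow_le_one₀ hs.le hs1) h)
  have hT : 0 ≤ ∫ x, ‖g x‖ ^ 2 := integral_nonneg fun x => sq_nonneg _
  have hL : 0 ≤ ∫ x, ψ x ^ 2 := integral_nonneg fun x => sq_nonneg _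
  have hD := D_nonneg ψ
  have h4 : ∫ x, J γ C p (ψ x ^ 2) = γ / p * (∫ x, (ψ x ^ 2) ^ p) -
      3 * C / 4 * ∫ x, (ψ x ^ 2) ^ (4 / 3 : ℝ) := by
    unfold J
    rw [integral_sub (h.lp.const_mul _) ((hS h).1.const_mul _), integral_const_mul,
      integral_const_mul]
  have h5 : 0 ≤ γ / p * ∫ x, (ψ x ^ 2) ^ p :=
    mul_nonneg (by positivity) (integral_nonneg fun x => by positivity)
  have h6 := mul_le_mul_of_nonneg_left (hS h).2 (show 0 ≤ 3 * C / 4 by positivity)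
  have h7 : (∫ x, ψ x ^ 2) ^ (5 / 3 : ℝ) = ((∫ x, ψ x ^ 2) ^ (5 / 6 : ℝ)) ^ 2 := by
    rw [← Real.rpow_natCast, ← Real.rpow_mul hL]
    norm_num
  rw [Real.sqrt_mul hS0] at h6
  have h8 := Real.sq_sqrt hT
  have h9 := Real.sq_sqrt hS0
  have h10 : 0 ≤ (∫ x, ψ x ^ 2) ^ (5 / 6 : ℝ) := by positivity
  unfold En
  rw [h4, h7]
  generalize (∫ x, ψ x ^ 2) ^ (5 / 6 : ℝ) = m at h6 h10
  have h11 : 3 * C / 4 * (m * (√S * √(∫ x, ‖g x‖ ^ 2))) ≤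
      A / 2 * (∫ x, ‖g x‖ ^ 2) + S / A * C ^ 2 * m ^ 2 := by
    have e1 : S / A * C ^ 2 * m ^ 2 = A * (√S * C * m / A) ^ 2 := by
      rw [div_pow, mul_pow, mul_pow, h9]
      field_simp
    have e2 : 3 * C / 4 * (m * (√S * √(∫ x, ‖g x‖ ^ 2))) =
        A * (3 / 4 * (√S * C * m / A) * √(∫ x, ‖g x‖ ^ 2)) := by
      field_simp
    rw [e1, e2, ← h8, Real.sqrt_sq (Real.sqrt_nonneg _)]
    generalize √S * C * m / A = u
    generalize √(∫ x, ‖g x‖ ^ 2) = y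
    nlinarith [mul_nonneg hA.le (sq_nonneg (y - u)), mul_nonneg hA.le (sq_nonneg u),
      mul_nonneg hA.le (sq_nonneg y), mul_nonneg hA.le (sq_nonneg (y - 3 / 4 * u))]
  nlinarith [mul_le_mul_of_nonneg_right hs2 hT]

lemma ad_sqrt {ρ : E → ℝ} (hp : 0 < p) (hm : Measurable ρ) (h0 : ∀ x, 0 ≤ ρ x) (h1 : Integrable ρ)
    (h2 : MemLp ρ (ENNReal.ofReal p)) (h3 : MemLp g 2) (h4 : WG (fun x => √(ρ x)) g) :
    Ad p (fun x => √(ρ x)) g ∧ (fun x => √(ρ x) ^ 2) = ρ := by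
  have e : ∀ x, √(ρ x) ^ 2 = ρ x := fun x => Real.sq_sqrt (h0 x)
  refine ⟨⟨hm.sqrt, (memLp_two_iff_integrable_sq hm.sqrt.aestronglyMeasurable).2 ?_, ?_, h3, h4⟩,
    funext e⟩
  · simpa only [e] using h1
  · have := h2.integrable_norm_rpow (by simpa using hp) ENNReal.ofReal_ne_top
    simpa only [e, ENNReal.toReal_ofReal hp.le, Real.norm_of_nonneg (h0 _)] using this

lemma ad_psi (hp : 0 < p) (hm : Measurable ψ) (h1 : MemLp ψ 2)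
    (h2 : MemLp ψ (ENNReal.ofReal (2 * p))) (h3 : MemLp g 2) (h4 : WG ψ g) : Ad p ψ g := by
  refine ⟨hm, h1, ?_, h3, h4⟩
  have := h2.integrable_norm_rpow (by simpa using hp) ENNReal.ofReal_ne_top
  rw [ENNReal.toReal_ofReal (by positivity)] at this
  refine this.congr (Eventually.of_forall fun x => ?_)
  simp only
  rw [Real.rpow_mul (norm_nonneg _), Real.rpow_two, Real.norm_eq_abs, sq_abs]

lemma ex_rho (hp : 0 < p) (l : ℝ) (hl : 0 ≤ l) : ∃ (ρ : E → ℝ) (g : E → E), Measurable ρ ∧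
    (∀ x, 0 ≤ ρ x) ∧ Integrable ρ ∧ MemLp ρ (ENNReal.ofReal p) ∧ MemLp (fun x => √(ρ x)) 6 ∧
    MemLp g 2 ∧ WG (fun x => √(ρ x)) g ∧ ∫ x, ρ x = l := by
  obtain ⟨u, h1, h2, h3, h4⟩ := ex_bump l hl
  have h := bump h1 h2 hp
  have e : (fun x => √(u x ^ 2)) = u := funext fun x => Real.sqrt_sq (h3 x)
  have hs : HasCompactSupport fun x => u x ^ 2 := h2.comp_left (g := fun t : ℝ => t ^ 2) (by simp)
  refine ⟨fun x => u x ^ 2, gradient u, h.mψ.pow_const 2, fun x => sq_nonneg _, h.l2.integrable_sq,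
    (h1.continuous.pow 2).memLp_of_hasCompactSupport hs, ?_, h.g2, ?_, h4⟩
  · rw [e]
    exact h1.continuous.memLp_of_hasCompactSupport h2
  · rw [e]
    exact h.wg

lemma ex_psi (hp : 0 < p) (l : ℝ) (hl : 0 ≤ l) : ∃ (ψ : E → ℝ) (g : E → E), Measurable ψ ∧
    MemLp ψ 2 ∧ MemLp ψ (ENNReal.ofReal (2 * p)) ∧ MemLp g 2 ∧ WG ψ g ∧ ∫ x, ψ x ^ 2 = l := by
  obtain ⟨u, h1, h2, h3, h4⟩ := ex_bump l hl
  have h := bump h1 h2 hp
  exact ⟨u, gradient u, h.mψ, h.l2, h1.continuous.memLp_of_hasCompactSupport h2, h.g2, h.wg, h4⟩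

lemma wg_zero : WG (fun _ => 0) (fun _ => 0) := fun φ _ _ z => by simp

lemma en_zero {F : ℝ → ℝ} (hF : F 0 = 0) : En A F z R (fun _ => 0) (fun _ => 0) = U z R := by
  simp [En, hF, D]

lemma J_zero (hp : 0 < p) : J γ C p 0 = 0 := by
  simp [J, hp.ne']

end Pool.Agent.H.MP_8b3296_mp
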