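import Pool.Agent.H.MP_8b3296_mp.D

open MeasureTheory Set Filter Topology Metric
open scoped ENNReal NNReal RealInnerProductSpace

namespace Pool.Agent.H.MP_8b3296_mp

variable {k : ℕ} {γ C p A : ℝ}

lemma lb4 (hA : 0 < A) {Z : ℝ} (hZ : 0 ≤ Z) : ∃ K S : ℝ, 0 ≤ K ∧ 0 ≤ S ∧
    ∀ (k : ℕ) (z : Fin k → ℝ) (R : Fin k → E), (∀ j, 0 < z j) → ∑ j, z j ≤ Z →
    ∀ γ C p : ℝ, 0 < γ → 0 < p → 0 < C → ∀ {ψ : E → ℝ} {g : E → E}, Ad p ψ g →
      U z R - (∑ j, z j) * K * (∫ x, ψ x ^ 2) - S * C ^ 2 * (∫ x, ψ x ^ 2) ^ (5 / 3 : ℝ) ≤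
        En A (J γ C p) z R (fun x => ψ x ^ 2) g := by
  obtain ⟨c, hc, hK⟩ := r1 1
  obtain ⟨S, hS0, hS⟩ := r4
  obtain ⟨s, hs, hs1, hs2⟩ : ∃ s : ℝ, 0 < s ∧ s ≤ 1 ∧ s * (Z * c) ≤ A / 2 := by
    refine ⟨min 1 (A / 2 / (Z * c + 1)), by positivity, min_le_left _ _, ?_⟩
    refine (mul_le_mul_of_nonneg_right (min_le_right _ _) (by positivity)).trans ?_
    rw [div_mul_eq_mul_div, div_le_iff₀ (by positivity)]
    exact mul_le_mul_of_nonneg_left (by linarith) (by positivity)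
  refine ⟨(s ^ 3)⁻¹, S / A, by positivity, by positivity,
    fun k z R hz hzZ γ C p hγ hp hC ψ g h => ?_⟩
  replace hs2 : s * ((∑ j, z j) * c) ≤ A / 2 := le_trans (by gcongr) hs2
  have h3 := h.bV (R := R) hz (hK s hs (pow_le_one₀ hs.le hs1) h)
  have hT : 0 ≤ ∫ x, ‖g x‖ ^ 2 := integral_nonneg fun x => sq_nonneg _
  have hL : 0 ≤ ∫ x, ψ x ^ 2 := integral_nonneg fun x => sq_nonneg _
  have hD := D_nonneg ψ
  have h4 : ∫ x, J γ C p (ψ x ^ 2) = γ / p * (∫ x, (ψ x ^ 2) ^ p) -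
      3 * C / 4 * ∫ x, (ψ x ^ 2) ^ (4 / 3 : ℝ) := by
    unfold J
    rw [integral_sub (h.lp.const_mul _) ((hS h).1.const_mul _), integral_const_mul,
      integral_const_mul]
  have h5 : 0 ≤ γ / p * ∫ x, (ψ x ^ 2) ^ p :=
    mul_nonneg (by positivity) (integral_nonneg fun x => by positivity)
  have h6 := mul_le_mul_of_nonneg_left (hS h).2 (show 0 ≤ 3 * C / 4 by positivity)
  have h7 : (∫ x, ψ x ^ 2) ^ (5 / 3 : ℝ) = ((∫ x, ψ x ^ 2) ^ (5 / 6 : ℝ)) ^ 2 := by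
    rw [← Real.rpow_natCast, ← Real.rpow_mul hL]
    norm_num
  rw [Real.sqrt_mul hS0] at h6
  have h8 := Real.sq_sqrt hT
  have h9 := Real.sq_sqrt hS0
  have h10 : 0 ≤ (∫ x, ψ x ^ 2) ^ (5 / 6 : ℝ) := by positivity
  unfold En
  rw [h4, h7]
  generalize (∫ x, ψ x ^ 2) ^ (5 / 6 : ℝ) = m at h6 h10
  have h11 : 3 * C / 4 * (m * (√S * √(∫ x, ‖g x‖ ^ 2))) ≤
      A / 2 * (∫ x, ‖g x‖ ^ 2) + S / A * C ^ 2 * m ^ 2 := by
    have e1 : S / A * C ^ 2 * m ^ 2 = A * (√S * C * m / A) ^ 2 := by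
      rw [div_pow, mul_pow, mul_pow, h9]
      field_simp
    have e2 : 3 * C / 4 * (m * (√S * √(∫ x, ‖g x‖ ^ 2))) =
        A * (3 / 4 * (√S * C * m / A) * √(∫ x, ‖g x‖ ^ 2)) := by
      field_simp
    rw [e1, e2, ← h8, Real.sqrt_sq (Real.sqrt_nonneg _)]
    generalize √S * C * m / A = u
    generalize √(∫ x, ‖g x‖ ^ 2) = y
    nlinarith [mul_nonneg hA.le (sq_nonneg (y - u)), mul_nonneg hA.le (sq_nonneg u),
      mul_nonneg hA.le (sq_nonneg y), mul_nonneg hA.le (sq_nonneg (y - 3 / 4 * u))]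
  nlinarith [mul_le_mul_of_nonneg_right hs2 hT]

lemma nconv {f : ℝ → ℝ} {u K S B l : ℝ} (hl : 0 < l) (hB : K < B)
    (h0 : f 0 ≤ u) (h1 : f l ≤ u - B * l)
    (h2 : ∀ m, 0 ≤ m → u - K * m - S * m ^ (5 / 3 : ℝ) ≤ f m) : ¬ConvexOn ℝ (Ici 0) f := by
  intro h
  have h3 : Tendsto (fun t : ℝ => S * (t * l) ^ (2 / 3 : ℝ)) (𝓝[>] 0) (𝓝 0) := by
    have : Continuous fun t : ℝ => S * (t * l) ^ (2 / 3 : ℝ) :=
      continuous_const.mul ((continuous_id.mul continuous_const).rpow_const fun _ =>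
        Or.inr (by norm_num))
    simpa using (this.tendsto 0).mono_left nhdsWithin_le_nhds
  obtain ⟨t, ht1, ht2⟩ := ((h3.eventually (gt_mem_nhds (sub_pos.2 hB))).and
    (Ioo_mem_nhdsGT one_pos)).exists
  have h4 := h.2 (mem_Ici.2 le_rfl) (mem_Ici.2 hl.le) (sub_nonneg.2 ht2.2.le) ht2.1.le (by ring)
  have h5 : 0 < t * l := mul_pos ht2.1 hl
  have h6 := h2 _ h5.le
  rw [show (5 / 3 : ℝ) = 1 + 2 / 3 by norm_num, Real.rpow_add h5, Real.rpow_one] at h6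
  simp only [smul_eq_mul, mul_zero, zero_add] at h4
  nlinarith [mul_lt_mul_of_pos_left ht1 h5, mul_le_mul_of_nonneg_left h0 (sub_nonneg.2 ht2.2.le),
    mul_le_mul_of_nonneg_left h1 ht2.1.le]

lemma Q_pos {u : E → ℝ} {g : E → E} (h : Ad p u g) (hl : 0 < ∫ x, u x ^ 2) :
    0 < ∫ x, (u x ^ 2) ^ (4 / 3 : ℝ) := by
  obtain ⟨S, -, hS⟩ := r4
  refine lt_of_le_of_ne (integral_nonneg fun x => by positivity) fun h0 => hl.ne' ?_
  have := (integral_eq_zero_iff_of_nonneg (fun x => by positivity) (hS h).1).1 h0.symm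
  refine integral_eq_zero_of_ae (this.mono fun x hx => ?_)
  exact (Real.rpow_eq_zero (sq_nonneg _) (by norm_num)).1 hx

lemma En_le {u : E → ℝ} {g : E → E} (h : Ad p u g) {z : Fin k → ℝ} (hz : ∀ j, 0 < z j)
    (R : Fin k → E) : En A (J γ C p) z R (fun x => u x ^ 2) g ≤ U z R +
      (A * (∫ x, ‖g x‖ ^ 2) + γ / p * (∫ x, (u x ^ 2) ^ p) -
        3 * C / 4 * (∫ x, (u x ^ 2) ^ (4 / 3 : ℝ)) + D fun x => u x ^ 2) := by
  obtain ⟨S, -, hS⟩ := r4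
  have h4 : ∫ x, J γ C p (u x ^ 2) = γ / p * (∫ x, (u x ^ 2) ^ p) -
      3 * C / 4 * ∫ x, (u x ^ 2) ^ (4 / 3 : ℝ) := by
    unfold J
    rw [integral_sub (h.lp.const_mul _) ((hS h).1.const_mul _), integral_const_mul,
      integral_const_mul]
  have h5 : 0 ≤ ∫ x, V z R x * u x ^ 2 := integral_nonneg fun x =>
    mul_nonneg (Finset.sum_nonneg fun j _ => div_nonneg (hz j).le (norm_nonneg _)) (sq_nonneg _)
  unfold En
  rw [h4]
  linarith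

lemma scal (f : E → ℝ) {s : ℝ} (hs : 0 < s) : ∫ x, f (s • x) = (s ^ 3)⁻¹ * ∫ x, f x := by
  rw [Measure.integral_comp_smul_of_nonneg volume f s (hR := hs.le)]
  simp

lemma scal2 (f : E × E → ℝ) {s : ℝ} (hs : 0 < s) : ∫ x, f (s • x) = (s ^ 6)⁻¹ * ∫ x, f x := by
  have : (volume : Measure (E × E)).IsAddHaarMeasure := by
    rw [Measure.volume_eq_prod]; infer_instance
  rw [Measure.integral_comp_smul_of_nonneg volume f s (hR := hs.le)]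
  simp

lemma neg_en (hC : 0 < C) (hp : 4 / 3 < p) : ∃ u : E → ℝ, ContDiff ℝ 1 u ∧
    HasCompactSupport u ∧ (∀ x, 0 ≤ u x) ∧ 0 < ∫ x, u x ^ 2 ∧
    A * (∫ x, ‖gradient u x‖ ^ 2) + γ / p * (∫ x, (u x ^ 2) ^ p) -
        3 * C / 4 * (∫ x, (u x ^ 2) ^ (4 / 3 : ℝ)) + D (fun x => u x ^ 2) < 0 := by
  obtain ⟨u, h1, h2, h3, h4⟩ := ex_bump 1 zero_le_one
  have hQ := Q_pos (bump h1 h2 one_pos) (by rw [h4]; exact one_pos)
  obtain ⟨T, hT⟩ : ∃ T, T = ∫ x, ‖gradient u x‖ ^ 2 := ⟨_, rfl⟩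
  obtain ⟨P, hP⟩ : ∃ P, P = ∫ x, (u x ^ 2) ^ p := ⟨_, rfl⟩
  obtain ⟨Q, hQ'⟩ : ∃ Q, Q = ∫ x, (u x ^ 2) ^ (4 / 3 : ℝ) := ⟨_, rfl⟩
  obtain ⟨W, hW⟩ : ∃ W, W = D fun x => u x ^ 2 := ⟨_, rfl⟩
  rw [← hQ'] at hQ
  have h5 : Tendsto (fun τ : ℝ => τ ^ 2 * (A * T + W) + τ ^ (12 * p - 16) * (γ / p * P)) (𝓝[>] 0)
      (𝓝 0) := by
    have h6 : 0 < 12 * p - 16 := by linarith
    have : Continuous fun τ : ℝ => τ ^ 2 * (A * T + W) + τ ^ (12 * p - 16) * (γ / p * P) :=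
      (by fun_prop : Continuous fun τ : ℝ => τ ^ 2 * (A * T + W)).add
        ((continuous_id.rpow_const fun _ => Or.inr h6.le).mul continuous_const)
    simpa [Real.zero_rpow h6.ne'] using (this.tendsto 0).mono_left nhdsWithin_le_nhds
  obtain ⟨τ, ht1, ht2⟩ := ((h5.eventually (gt_mem_nhds (show 0 < 3 * C / 4 * Q by positivity))).and
    self_mem_nhdsWithin).exists
  replace ht2 : 0 < τ := ht2
  have hs : 0 < τ ^ 3 := by positivity
  refine ⟨fun x => τ ^ 6 * u (τ ^ 3 • x), contDiff_const.mul (h1.comp (contDiff_id.const_smul _)),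
    (h2.comp_smul hs.ne').mul_left, fun x => mul_nonneg (by positivity) (h3 _), ?_, ?_⟩
  · simp only [mul_pow]
    rw [integral_const_mul, scal (fun x => u x ^ 2) hs, h4]
    positivity
  · have e1 : ∀ x, ‖gradient (fun x => τ ^ 6 * u (τ ^ 3 • x)) x‖ ^ 2 =
        τ ^ 18 * ‖gradient u (τ ^ 3 • x)‖ ^ 2 := by
      intro x
      have := (((h1.differentiable one_ne_zero) (τ ^ 3 • x)).hasFDerivAt.comp x
        ((hasFDerivAt_id x).const_smul (τ ^ 3))).const_mul (τ ^ 6)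
      simp only [gradient, LinearIsometryEquiv.norm_map]
      rw [show (fun x => τ ^ 6 * u (τ ^ 3 • x)) = fun x => τ ^ 6 * (u ∘ fun x => τ ^ 3 • x) x from rfl,
        this.fderiv, ContinuousLinearMap.comp_smul, ContinuousLinearMap.comp_id, norm_smul, norm_smul,
        Real.norm_of_nonneg (by positivity), Real.norm_of_nonneg (by positivity)]
      ring
    have e2 : ∀ (q : ℝ) x, ((τ ^ 6 * u (τ ^ 3 • x)) ^ 2) ^ q = τ ^ (12 * q) * (u (τ ^ 3 • x) ^ 2) ^ q := by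
      intro q x
      rw [mul_pow, Real.mul_rpow (by positivity) (sq_nonneg _), ← pow_mul, ← Real.rpow_natCast,
        ← Real.rpow_mul ht2.le]
      norm_num
    have e3 : D (fun x => (τ ^ 6 * u (τ ^ 3 • x)) ^ 2) = τ ^ 9 * W := by
      have e4 : ∀ q : E × E, (τ ^ 6 * u (τ ^ 3 • q.1)) ^ 2 * (τ ^ 6 * u (τ ^ 3 • q.2)) ^ 2 /
          ‖q.1 - q.2‖ = τ ^ 27 * (u (τ ^ 3 • q).1 ^ 2 * u (τ ^ 3 • q).2 ^ 2 /
            ‖(τ ^ 3 • q).1 - (τ ^ 3 • q).2‖) := by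
        intro q
        rw [Prod.smul_fst, Prod.smul_snd, ← smul_sub, norm_smul, Real.norm_of_nonneg hs.le]
        rcases eq_or_ne ‖q.1 - q.2‖ 0 with h | h
        · simp [h]
        · field_simp
      rw [hW, D, D]
      simp only [e4]
      rw [integral_const_mul, scal2 (fun q => u q.1 ^ 2 * u q.2 ^ 2 / ‖q.1 - q.2‖) hs]
      field_simp
    simp only [e1, e2]
    rw [e3, integral_const_mul, integral_const_mul, integral_const_mul,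
      scal (fun x => ‖gradient u x‖ ^ 2) hs, scal (fun x => (u x ^ 2) ^ p) hs,
      scal (fun x => (u x ^ 2) ^ (4 / 3 : ℝ)) hs, ← hT, ← hP, ← hQ',
      show 12 * p = (12 * p - 16) + (16 : ℕ) by push_cast; ring, Real.rpow_add ht2, Real.rpow_natCast,
      show (12 : ℝ) * (4 / 3) = (16 : ℕ) by norm_num, Real.rpow_natCast]
    have := mul_lt_mul_of_pos_left ht1 (show 0 < τ ^ 7 by positivity)
    generalize τ ^ (12 * p - 16) = y at this ⊢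
    have e5 : A * (τ ^ 18 * (((τ ^ 3) ^ 3)⁻¹ * T)) + γ / p * (y * τ ^ 16 * (((τ ^ 3) ^ 3)⁻¹ * P)) -
        3 * C / 4 * (τ ^ 16 * (((τ ^ 3) ^ 3)⁻¹ * Q)) + τ ^ 9 * W =
        τ ^ 7 * (τ ^ 2 * (A * T + W) + y * (γ / p * P)) - τ ^ 7 * (3 * C / 4 * Q) := by
      field_simp
      ring
    rw [e5]
    linarith

end Pool.Agent.H.MP_8b3296_mp
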